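import Pool.Agent.H679R2.Mix.Defs
import Pool.Agent.H623R2.PS.Savitch
import Pool.Agent.H671R2.GraphEnc

/-!
# `k`-colour mixing is in `PSPACE`
-/

namespace Pool.Agent.NPC.Mix.T1

open Pool.Agent.H623R2.PS

/-! ### Universal blocks -/

theorem evq_forall (n : ℕ) (qs : List Bool) (φ : List Bool → Bool) :
    evq (List.replicate n true ++ qs) φ = true ↔
      ∀ M : List Bool, M.length = n → evq qs (fun u => φ (M ++ u)) = true := by
  induction n generalizing φ with
  | zero =>
    constructor
    · intro h M hM
      rw [List.length_eq_zero_iff] at hM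
      subst hM
      simpa using h
    · intro h
      simpa using h [] rfl
  | succ n ih =>
    rw [List.replicate_succ, List.cons_append, evq, cond_true, Bool.and_eq_true, ih, ih]
    constructor
    · rintro ⟨h0, h1⟩ M hM
      cases M with
      | nil => simp at hM
      | cons b M =>
        cases b with
        | false => simpa using h0 M (by simpa using hM)
        | true => simpa using h1 M (by simpa using hM)
    · intro h
      exact ⟨fun M hM => by simpa using h (false :: M) (by simp [hM]),
        fun M hM => by simpa using h (true :: M) (by simp [hM])⟩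

theorem evq_or (g : Bool) (qs : List Bool) (φ : List Bool → Bool) :
    evq qs (fun u => g || φ u) = (g || evq qs φ) := by
  induction qs generalizing φ with
  | nil => rfl
  | cons q qs ih =>
    rw [evq, evq, ih, ih]
    cases g <;> cases q <;> simp

/-! ### Matrices and colourings -/

/-- An entry of a matrix. -/
def ent (p : List (List Bool)) (i j : ℕ) : Bool := (p.getD i []).getD j false

/-- The matrix is an adjacency matrix. -/
def goodMat (p : List (List Bool)) : Bool :=
  (p.all fun row => decide (row.length = p.length)) &&
    ((List.range p.length).all fun i => (!(ent p i i)) &&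
      (List.range p.length).all fun j => decide (ent p i j = ent p j i))

/-- The graph of a matrix. -/
def grOf (p : List (List Bool)) : SimpleGraph (Fin p.length) where
  Adj i j := i ≠ j ∧ ent p i j = true ∧ ent p j i = true
  symm := ⟨fun _ _ h => ⟨h.1.symm, h.2.2, h.2.1⟩⟩
  loopless := ⟨fun _ h => h.1 rfl⟩

theorem adjMatrix_length {n : ℕ} (G : SimpleGraph (Fin n)) : (R671.adjMatrix G).length = n := by
  unfold R671.adjMatrix
  rw [List.length_ofFn]

theorem ent_adjMatrix {n : ℕ} (G : SimpleGraph (Fin n)) (i j : Fin n) :
    ent (R671.adjMatrix G) i j = true ↔ G.Adj i j := by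
  simp [ent, R671.adjMatrix]

theorem goodMat_iff (p : List (List Bool)) : goodMat p = true ↔
    (∀ row ∈ p, row.length = p.length) ∧ ∀ i < p.length, ent p i i = false ∧
      ∀ j < p.length, ent p i j = ent p j i := by
  unfold goodMat
  simp only [Bool.and_eq_true, List.all_eq_true, decide_eq_true_eq, List.mem_range,
    Bool.not_eq_true']

theorem adjMatrix_grOf {p : List (List Bool)} (h : goodMat p = true) :
    R671.adjMatrix (grOf p) = p := by
  rw [goodMat_iff] at h
  obtain ⟨h1, h2⟩ := h
  unfold R671.adjMatrix
  apply List.ext_getElem
  · simp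
  · intro i hi hi'
    rw [List.getElem_ofFn]
    have hrow := h1 _ (List.getElem_mem hi')
    apply List.ext_getElem
    · rw [hrow, List.length_ofFn]
    · intro j hj hj'
      rw [List.getElem_ofFn]
      have hjp : j < p.length := by rw [← hrow]; exact hj'
      have e : ent p i j = p[i][j] := by
        unfold ent
        rw [List.getD_eq_getElem _ _ hi', List.getD_eq_getElem _ _ hj']
      rw [← e, Bool.eq_iff_iff]
      simp only [decide_eq_true_eq]
      constructor
      · rintro ⟨_, h, _⟩
        exact h
      · intro h
        refine ⟨?_, h, ?_⟩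
        · intro hij
          have hij' : i = j := congrArg Fin.val hij
          subst hij'
          rw [(h2 i hi').1] at h
          cases h
        · rw [← (h2 i hi').2 j hjp]
          exact h

theorem goodMat_adjMatrix {n : ℕ} (G : SimpleGraph (Fin n)) :
    goodMat (R671.adjMatrix G) = true := by
  rw [goodMat_iff, adjMatrix_length]
  refine ⟨?_, ?_⟩
  · intro row hrow
    unfold R671.adjMatrix at hrow
    rw [List.mem_ofFn] at hrow
    obtain ⟨i, rfl⟩ := hrow
    rw [List.length_ofFn]
  · intro i hi
    refine ⟨?_, ?_⟩
    · have := ent_adjMatrix G ⟨i, hi⟩ ⟨i, hi⟩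
      rw [Bool.eq_false_iff]
      intro h
      exact G.loopless.irrefl _ (this.1 h)
    · intro j hj
      have h1 := ent_adjMatrix G ⟨i, hi⟩ ⟨j, hj⟩
      have h2 := ent_adjMatrix G ⟨j, hj⟩ ⟨i, hi⟩
      rw [Bool.eq_iff_iff]
      simp only at h1 h2
      rw [h1, h2]
      exact G.adj_comm _ _

theorem mixing_iff (k : ℕ) (p : List (List Bool)) :
    COLOUR_MIXING k p ↔ goodMat p = true ∧ IsMixing (grOf p) k := by
  constructor
  · rintro ⟨n, G, rfl, h⟩
    have hg := goodMat_adjMatrix G
    refine ⟨hg, ?_⟩
    have h1 := adjMatrix_grOf hg
    have key : ∀ (m : ℕ) (e : m = n) (H : SimpleGraph (Fin m)),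
        R671.adjMatrix H = R671.adjMatrix G → IsMixing H k := by
      rintro m rfl H hH
      rwa [R671.adjMatrix_inj hH]
    exact key _ (adjMatrix_length G) _ h1
  · rintro ⟨h1, h2⟩
    exact ⟨_, grOf p, adjMatrix_grOf h1, h2⟩

/-- The colour of a vertex in a bit string. -/
def colOf (k : ℕ) (u : List Bool) (i : ℕ) : ℕ :=
  ((List.range k).filter fun c => u.getD (i * k + c) false).length

/-- The bit string is a colouring of the graph of the matrix. -/
def valid (k : ℕ) (p : List (List Bool)) (u : List Bool) : Bool :=
  decide (u.length = p.length * k) && ((List.range p.length).all fun i =>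
    decide (colOf k u i < k) && (List.range p.length).all fun j =>
      (!(ent p i j)) || !(decide (colOf k u i = colOf k u j)))

/-- The two bit strings are colourings which differ in at most one vertex. -/
def step (k : ℕ) (p : List (List Bool)) (u v : List Bool) : Bool :=
  valid k p u && (valid k p v && (List.range p.length).any fun x =>
    (List.range p.length).all fun y => decide (y = x) || decide (colOf k u y = colOf k v y))

/-- The bit string represents the colouring. -/
def Rep {k : ℕ} {p : List (List Bool)} (u : List Bool) (a : (grOf p).Coloring (Fin k)) : Prop :=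
  u.length = p.length * k ∧ ∀ i : Fin p.length, colOf k u i = (a i : ℕ)

theorem rep_unique {k : ℕ} {p : List (List Bool)} {u : List Bool}
    {a b : (grOf p).Coloring (Fin k)} (ha : Rep u a) (hb : Rep u b) : a = b := by
  ext i
  rw [← ha.2 i, ← hb.2 i]

theorem valid_iff {k : ℕ} {p : List (List Bool)} (hp : goodMat p = true) (u : List Bool) :
    valid k p u = true ↔ ∃ a : (grOf p).Coloring (Fin k), Rep u a := by
  rw [goodMat_iff] at hp
  unfold valid
  simp only [Bool.and_eq_true, List.all_eq_true, decide_eq_true_eq, List.mem_range,
    Bool.or_eq_true, Bool.not_eq_true', decide_eq_false_iff_not]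
  constructor
  · rintro ⟨h1, h2⟩
    refine ⟨SimpleGraph.Coloring.mk (fun i => ⟨colOf k u i, (h2 i i.2).1⟩) ?_, h1, fun i => rfl⟩
    intro i j hij he
    rcases (h2 i i.2).2 j j.2 with h | h
    · rw [hij.2.1] at h
      cases h
    · exact h (congrArg Fin.val he)
  · rintro ⟨a, h1, h2⟩
    refine ⟨h1, fun i hi => ⟨?_, fun j hj => ?_⟩⟩
    · rw [h2 ⟨i, hi⟩]
      exact (a ⟨i, hi⟩).2
    · rw [h2 ⟨i, hi⟩, h2 ⟨j, hj⟩]
      by_cases he : ent p i j = true
      · right
        intro h
        have hadj : (grOf p).Adj ⟨i, hi⟩ ⟨j, hj⟩ := by
          refine ⟨?_, he, ?_⟩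
          · intro hij
            have hij' : i = j := congrArg Fin.val hij
            subst hij'
            rw [(hp.2 i hi).1] at he
            cases he
          · show ent p j i = true
            rw [← (hp.2 i hi).2 j hj]
            exact he
        exact a.valid hadj (Fin.ext h)
      · left
        simpa using he

theorem step_iff {k : ℕ} {p : List (List Bool)} (hp : goodMat p = true) {u v : List Bool}
    {a b : (grOf p).Coloring (Fin k)} (ha : Rep u a) (hb : Rep v b) :
    step k p u v = true ↔ ∃ x, ∀ y, y ≠ x → a y = b y := by
  unfold step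
  rw [(valid_iff hp u).2 ⟨a, ha⟩, (valid_iff hp v).2 ⟨b, hb⟩, Bool.true_and, Bool.true_and]
  simp only [List.any_eq_true, List.all_eq_true, decide_eq_true_eq, List.mem_range,
    Bool.or_eq_true]
  constructor
  · rintro ⟨x, hx, h⟩
    refine ⟨⟨x, hx⟩, fun y hy => ?_⟩
    rcases h y y.2 with h | h
    · exact absurd (Fin.ext h) hy
    · rw [ha.2, hb.2] at h
      exact Fin.ext h
  · rintro ⟨x, h⟩
    refine ⟨x, x.2, fun y hy => ?_⟩
    by_cases hyx : y = x
    · exact Or.inl hyx
    · right
      have := h ⟨y, hy⟩ (fun h => hyx (congrArg Fin.val h))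
      rw [ha.2 ⟨y, hy⟩, hb.2 ⟨y, hy⟩, this]

/-- The bit string of a colouring. -/
def enc {n : ℕ} (k : ℕ) (a : Fin n → Fin k) : List Bool :=
  (List.range (n * k)).map fun t =>
    decide (t % k < if h : t / k < n then (a ⟨t / k, h⟩ : ℕ) else 0)

theorem filter_lt (k c : ℕ) (h : c ≤ k) : ((List.range k).filter fun x => decide (x < c)).length = c := by
  induction k with
  | zero =>
    have : c = 0 := by omega
    subst this
    rfl
  | succ k ih =>
    rw [List.range_succ, List.filter_append, List.length_append]
    by_cases hc : c ≤ k
    · rw [ih hc]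
      simp
      exact hc
    · have : c = k + 1 := by omega
      subst this
      have e : ((List.range k).filter fun x => decide (x < k + 1)) = List.range k := by
        rw [List.filter_eq_self]
        intro x hx
        rw [List.mem_range] at hx
        rw [decide_eq_true_eq]
        omega
      rw [e]
      simp

theorem colOf_enc {n : ℕ} (k : ℕ) (a : Fin n → Fin k) (i : Fin n) :
    colOf k (enc k a) i = (a i : ℕ) := by
  have hk : 0 < k := lt_of_le_of_lt (Nat.zero_le _) (a i).2
  unfold colOf
  have h1 : ((List.range k).filter fun c => (enc k a).getD ((i : ℕ) * k + c) false) =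
      (List.range k).filter fun x => decide (x < (a i : ℕ)) := by
    apply List.filter_congr
    intro c hc
    rw [List.mem_range] at hc
    have hlt : (i : ℕ) * k + c < n * k := by
      have : ((i : ℕ) + 1) * k ≤ n * k := Nat.mul_le_mul_right _ i.2
      rw [add_mul, one_mul] at this
      omega
    have hlt' : (i : ℕ) * k + c < (enc k a).length := by
      unfold enc
      rwa [List.length_map, List.length_range]
    rw [List.getD_eq_getElem _ _ hlt']
    unfold enc
    rw [List.getElem_map, List.getElem_range]
    have e1 : ((i : ℕ) * k + c) % k = c := by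
      rw [Nat.mul_add_mod_of_lt hc]
    have e2 : ((i : ℕ) * k + c) / k = i := by
      rw [mul_comm, Nat.mul_add_div hk, Nat.div_eq_of_lt hc, add_zero]
    rw [e1]
    congr 1
    rw [dif_pos (by rw [e2]; exact i.2)]
    congr 4
  rw [h1, filter_lt _ _ (a i).2.le]

theorem rep_enc {k : ℕ} {p : List (List Bool)} (a : (grOf p).Coloring (Fin k)) :
    Rep (enc k a) a := by
  refine ⟨?_, fun i => colOf_enc k a i⟩
  unfold enc
  rw [List.length_map, List.length_range]

theorem reach_of {k : ℕ} {p : List (List Bool)} (hp : goodMat p = true) {u v : List Bool}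
    (h : Relation.ReflTransGen (fun u v => step k p u v = true) u v) :
    ∀ {a b : (grOf p).Coloring (Fin k)}, Rep u a → Rep v b → (colGraph (grOf p) k).Reachable a b := by
  induction h using Relation.ReflTransGen.head_induction_on with
  | refl =>
    intro a b ha hb
    rw [rep_unique ha hb]
  | @head u w h _ ih =>
    intro a b ha hb
    have hw : valid k p w = true := by
      unfold step at h
      rw [Bool.and_eq_true, Bool.and_eq_true] at h
      exact h.2.1
    obtain ⟨c, hc⟩ := (valid_iff hp w).1 hw
    obtain ⟨x, hx⟩ := (step_iff hp ha hc).1 h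
    refine SimpleGraph.Reachable.trans ?_ (ih hc hb)
    by_cases hax : a x = c x
    · have : a = c := by
        ext y
        by_cases hyx : y = x
        · rw [hyx, hax]
        · rw [hx y hyx]
      rw [this]
    · exact SimpleGraph.Adj.reachable ⟨x, hax, hx⟩

theorem of_reach {k : ℕ} {p : List (List Bool)} (hp : goodMat p = true)
    {a b : (grOf p).Coloring (Fin k)} (h : (colGraph (grOf p) k).Reachable a b) :
    ∀ {u v : List Bool}, Rep u a → Rep v b →
      Relation.ReflTransGen (fun u v => step k p u v = true) u v := by
  rw [SimpleGraph.reachable_iff_reflTransGen] at h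
  induction h using Relation.ReflTransGen.head_induction_on with
  | refl =>
    intro u v hu hv
    by_cases hn : p.length = 0
    · have h1 := hu.1
      have h2 := hv.1
      rw [hn, zero_mul, List.length_eq_zero_iff] at h1 h2
      rw [h1, h2]
    · exact Relation.ReflTransGen.single
        ((step_iff hp hu hv).2 ⟨⟨0, by omega⟩, fun _ _ => rfl⟩)
  | @head a c h _ ih =>
    intro u v hu hv
    obtain ⟨x, _, hx⟩ := h
    exact Relation.ReflTransGen.head ((step_iff hp hu (rep_enc c)).2 ⟨x, hx⟩) (ih (rep_enc c) hv)

theorem isMixing_iff {k : ℕ} {p : List (List Bool)} (hp : goodMat p = true) :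
    IsMixing (grOf p) k ↔ ∀ u, valid k p u = true → ∀ v, valid k p v = true →
      Relation.ReflTransGen (fun u v => step k p u v = true) u v := by
  constructor
  · intro h u hu v hv
    obtain ⟨a, ha⟩ := (valid_iff hp u).1 hu
    obtain ⟨b, hb⟩ := (valid_iff hp v).1 hv
    exact of_reach hp (h a b) ha hb
  · intro h a b
    exact reach_of hp (h _ ((valid_iff hp _).2 ⟨a, rep_enc a⟩) _
      ((valid_iff hp _).2 ⟨b, rep_enc b⟩)) (rep_enc a) (rep_enc b)

/-! ### Polynomial time -/

section Poly

attribute [local fun_prop] Poly.range_length

theorem take_eq_aux {α : Type} (k : ℕ) : ∀ (l : List α) (j : ℕ),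
    ((l.zipIdx j).filter fun q => decide (q.2 < j + k)).map Prod.fst = l.take k
  | [], j => by simp
  | a :: l, j => by
    rw [List.zipIdx_cons]
    cases k with
    | zero =>
      rw [List.take_zero, List.map_eq_nil_iff, List.filter_eq_nil_iff]
      rintro ⟨b, i⟩ hb
      rw [← List.zipIdx_cons, List.mem_zipIdx_iff_le_and_getElem?_sub] at hb
      simp only [decide_eq_true_eq]
      omega
    | succ k =>
      have ih := take_eq_aux k l (j + 1)
      rw [List.take_succ_cons, ← ih, List.filter_cons_of_pos (by simp), List.map_cons,
        show j + (k + 1) = j + 1 + k by omega]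

theorem drop_eq_aux {α : Type} (k : ℕ) : ∀ (l : List α) (j : ℕ),
    ((l.zipIdx j).filter fun q => decide (j + k ≤ q.2)).map Prod.fst = l.drop k
  | [], j => by simp
  | a :: l, j => by
    rw [List.zipIdx_cons]
    cases k with
    | zero =>
      rw [List.drop_zero, List.filter_eq_self.2]
      · rw [← List.zipIdx_cons]
        exact List.zipIdx_map_fst _ _
      · rintro ⟨b, i⟩ hb
        rw [← List.zipIdx_cons, List.mem_zipIdx_iff_le_and_getElem?_sub] at hb
        simp only [decide_eq_true_eq]
        omega
    | succ k =>
      have ih := drop_eq_aux k l (j + 1)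
      rw [List.drop_succ_cons, ← ih, List.filter_cons_of_neg (by simp),
        show j + (k + 1) = j + 1 + k by omega]

theorem poly_take {α β : Type} [TEnc α] [TEnc β] {l : α → List β} {k : α → ℕ} (hl : Poly l)
    (hk : Poly k) : Poly (fun a => (l a).take (k a)) := by
  have h : Poly (fun a => (((l a).zipIdx.filter fun q => decide (q.2 < k a)).map Prod.fst)) := by
    fun_prop
  refine h.congr fun a => ?_
  have := take_eq_aux (k a) (l a) 0
  simpa using this

theorem poly_drop {α β : Type} [TEnc α] [TEnc β] {l : α → List β} {k : α → ℕ} (hl : Poly l)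
    (hk : Poly k) : Poly (fun a => (l a).drop (k a)) := by
  have h : Poly (fun a => (((l a).zipIdx.filter fun q => decide (k a ≤ q.2)).map Prod.fst)) := by
    fun_prop
  refine h.congr fun a => ?_
  have := drop_eq_aux (k a) (l a) 0
  simpa using this

theorem poly_ent {α : Type} [TEnc α] {p : α → List (List Bool)} {i j : α → ℕ} (hp : Poly p)
    (hi : Poly i) (hj : Poly j) : Poly (fun a => ent (p a) (i a) (j a)) := by
  unfold ent
  exact Poly.getD (Poly.getD hp hi (Poly.const _)) hj (Poly.const _)

theorem poly_colOf (k : ℕ) {α : Type} [TEnc α] {u : α → List Bool} {i : α → ℕ} (hu : Poly u)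
    (hi : Poly i) : Poly (fun a => colOf k (u a) (i a)) := by
  unfold colOf
  have h : Poly (fun q : α × ℕ => (u q.1).getD (i q.1 * k + q.2) false) := by
    have hu' : Poly (fun q : α × ℕ => u q.1) := hu.comp (Poly.fst Poly.id)
    have hi' : Poly (fun q : α × ℕ => i q.1) := hi.comp (Poly.fst Poly.id)
    exact Poly.getD hu' (Poly.add (Poly.mul hi' (Poly.const _)) (Poly.snd Poly.id)) (Poly.const _)
  fun_prop

theorem poly_goodMat : Poly goodMat := by
  unfold goodMat
  have h1 : Poly (fun q : List (List Bool) × ℕ => ent q.1 q.2 q.2) :=
    poly_ent (by fun_prop) (by fun_prop) (by fun_prop)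
  have h2 : Poly (fun q : (List (List Bool) × ℕ) × ℕ => ent q.1.1 q.1.2 q.2) :=
    poly_ent (by fun_prop) (by fun_prop) (by fun_prop)
  have h3 : Poly (fun q : (List (List Bool) × ℕ) × ℕ => ent q.1.1 q.2 q.1.2) :=
    poly_ent (by fun_prop) (by fun_prop) (by fun_prop)
  fun_prop

theorem poly_valid (k : ℕ) : Poly (fun q : List (List Bool) × List Bool => valid k q.1 q.2) := by
  unfold valid
  have h1 : Poly (fun q : (List (List Bool) × List Bool) × ℕ => colOf k q.1.2 q.2) :=
    poly_colOf k (by fun_prop) (by fun_prop)
  have h2 : Poly (fun q : ((List (List Bool) × List Bool) × ℕ) × ℕ => ent q.1.1.1 q.1.2 q.2) :=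
    poly_ent (by fun_prop) (by fun_prop) (by fun_prop)
  have h3 : Poly (fun q : ((List (List Bool) × List Bool) × ℕ) × ℕ => colOf k q.1.1.2 q.1.2) :=
    poly_colOf k (by fun_prop) (by fun_prop)
  have h4 : Poly (fun q : ((List (List Bool) × List Bool) × ℕ) × ℕ => colOf k q.1.1.2 q.2) :=
    poly_colOf k (by fun_prop) (by fun_prop)
  fun_prop

theorem poly_step (k : ℕ) :
    Poly (fun q : List (List Bool) × List Bool × List Bool => step k q.1 q.2.1 q.2.2) := by
  unfold step
  have h1 : Poly (fun q : List (List Bool) × List Bool × List Bool => valid k q.1 q.2.1) :=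
    (poly_valid k).comp (f := fun q : List (List Bool) × List Bool × List Bool => (q.1, q.2.1))
      (by fun_prop)
  have h2 : Poly (fun q : List (List Bool) × List Bool × List Bool => valid k q.1 q.2.2) :=
    (poly_valid k).comp (f := fun q : List (List Bool) × List Bool × List Bool => (q.1, q.2.2))
      (by fun_prop)
  have h3 : Poly (fun q : ((List (List Bool) × List Bool × List Bool) × ℕ) × ℕ =>
      colOf k q.1.1.2.1 q.2) := poly_colOf k (by fun_prop) (by fun_prop)
  have h4 : Poly (fun q : ((List (List Bool) × List Bool × List Bool) × ℕ) × ℕ =>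
      colOf k q.1.1.2.2 q.2) := poly_colOf k (by fun_prop) (by fun_prop)
  fun_prop

end Poly

/-- The matrix of the quantified formula. -/
def mat (k : ℕ) (p : List (List Bool)) (w : ℕ) (u v z : List Bool) : Bool :=
  (!(valid k p u && valid k p v)) || (decide ((fin3 w u v z).1 = (fin3 w u v z).2.1) ||
    step k p (fin3 w u v z).1 (fin3 w u v z).2.1)

theorem poly_mat (k : ℕ) : Poly (fun q : List (List Bool) × ℕ × List Bool × List Bool × List Bool =>
    mat k q.1 q.2.1 q.2.2.1 q.2.2.2.1 q.2.2.2.2) := by
  unfold mat
  have h1 : Poly (fun q : List (List Bool) × ℕ × List Bool × List Bool × List Bool =>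
      valid k q.1 q.2.2.1) := (poly_valid k).comp
    (f := fun q : List (List Bool) × ℕ × List Bool × List Bool × List Bool => (q.1, q.2.2.1))
    (by fun_prop)
  have h2 : Poly (fun q : List (List Bool) × ℕ × List Bool × List Bool × List Bool =>
      valid k q.1 q.2.2.2.1) := (poly_valid k).comp
    (f := fun q : List (List Bool) × ℕ × List Bool × List Bool × List Bool => (q.1, q.2.2.2.1))
    (by fun_prop)
  have h3 : Poly (fun q : List (List Bool) × ℕ × List Bool × List Bool × List Bool =>
      fin3 q.2.1 q.2.2.1 q.2.2.2.1 q.2.2.2.2) := poly_fin3.comp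
    (f := fun q : List (List Bool) × ℕ × List Bool × List Bool × List Bool => q.2) (by fun_prop)
  have h4 : Poly (fun q : List (List Bool) × ℕ × List Bool × List Bool × List Bool =>
      step k q.1 (fin3 q.2.1 q.2.2.1 q.2.2.2.1 q.2.2.2.2).1
        (fin3 q.2.1 q.2.2.1 q.2.2.2.1 q.2.2.2.2).2.1) := (poly_step k).comp
    (f := fun q : List (List Bool) × ℕ × List Bool × List Bool × List Bool =>
      (q.1, (fin3 q.2.1 q.2.2.1 q.2.2.2.1 q.2.2.2.2).1,
        (fin3 q.2.1 q.2.2.1 q.2.2.2.1 q.2.2.2.2).2.1)) (by fun_prop)
  fun_prop

theorem evq_mat (k : ℕ) (p : List (List Bool)) (u v : List Bool)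
    (hu : u.length = p.length * k) :
    evq (blocks (p.length * k) (p.length * k)) (fun z => mat k p (p.length * k) u v z) = true ↔
      (valid k p u = true → valid k p v = true →
        Relation.ReflTransGen (fun u v => step k p u v = true) u v) := by
  unfold mat
  rw [evq_or, Bool.or_eq_true]
  have h := (evq_blocks (R := step k p) (p.length * k) (p.length * k) u v)
  have h' : ∀ u v : List Bool, u.length = p.length * k → step k p u v = true →
      v.length = p.length * k := by
    intro u v _ h
    unfold step at h
    rw [Bool.and_eq_true, Bool.and_eq_true] at h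
    have h2 := h.2.1
    unfold valid at h2
    rw [Bool.and_eq_true, decide_eq_true_eq] at h2
    exact h2.1
  rw [RR_reach h' hu] at h
  have h2 : evq (blocks (p.length * k) (p.length * k)) (fun z =>
      decide ((fin3 (p.length * k) u v z).1 = (fin3 (p.length * k) u v z).2.1) ||
      step k p (fin3 (p.length * k) u v z).1 (fin3 (p.length * k) u v z).2.1) = true ↔
      Relation.ReflTransGen (fun u v => step k p u v = true) u v := h
  rw [h2]
  cases valid k p u <;> cases valid k p v <;> simp

/-- `k`-COLOUR-MIXING is in `PSPACE`. -/
theorem member (k : ℕ) : InPSPACE (lang (COLOUR_MIXING k)) := by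
  have hPp : Poly (fun o : Option (List (List Bool)) => o.getD []) := by fun_prop
  have hw : UPoly (fun o : Option (List (List Bool)) => (o.getD []).length * k) :=
    UPoly.mul (UPoly.length hPp) (UPoly.const _)
  have hwp := hw.toPoly
  refine inPSPACE_of_evq (α := Option (List (List Bool))) (init := unbits (List (List Bool)))
    poly_unbits
    (qs := fun x => List.replicate (((unbits (List (List Bool)) x).getD []).length * k) true ++
      (List.replicate (((unbits (List (List Bool)) x).getD []).length * k) true ++
      blocks (((unbits (List (List Bool)) x).getD []).length * k)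
        (((unbits (List (List Bool)) x).getD []).length * k))) ?_
    (φ := fun o u => (o.isSome && goodMat (o.getD [])) &&
      mat k (o.getD []) ((o.getD []).length * k) (u.take ((o.getD []).length * k))
        ((u.drop ((o.getD []).length * k)).take ((o.getD []).length * k))
        ((u.drop ((o.getD []).length * k)).drop ((o.getD []).length * k))) ?_ ?_
  · have h1 := poly_replicate (hw.comp (poly_unbits (α := List (List Bool)))) true
    have h2 := poly_blocks (hw.comp (poly_unbits (α := List (List Bool))))
    fun_prop
  · have h1 : Poly (fun q : Option (List (List Bool)) × List Bool => goodMat (q.1.getD [])) :=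
      poly_goodMat.comp (f := fun q : Option (List (List Bool)) × List Bool => q.1.getD [])
        (by fun_prop)
    have hwq : Poly (fun q : Option (List (List Bool)) × List Bool => (q.1.getD []).length * k) :=
      hwp.comp (f := fun q : Option (List (List Bool)) × List Bool => q.1) (by fun_prop)
    have h2 : Poly (fun q : Option (List (List Bool)) × List Bool =>
        mat k (q.1.getD []) ((q.1.getD []).length * k) (q.2.take ((q.1.getD []).length * k))
        ((q.2.drop ((q.1.getD []).length * k)).take ((q.1.getD []).length * k))
        ((q.2.drop ((q.1.getD []).length * k)).drop ((q.1.getD []).length * k))) :=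
      (poly_mat k).comp (f := fun q : Option (List (List Bool)) × List Bool =>
        (q.1.getD [], (q.1.getD []).length * k, q.2.take ((q.1.getD []).length * k),
          (q.2.drop ((q.1.getD []).length * k)).take ((q.1.getD []).length * k),
          (q.2.drop ((q.1.getD []).length * k)).drop ((q.1.getD []).length * k)))
        (Poly.pair (by fun_prop) (Poly.pair hwq (Poly.pair (poly_take (by fun_prop) hwq)
          (Poly.pair (poly_take (poly_drop (by fun_prop) hwq) hwq)
            (poly_drop (poly_drop (by fun_prop) hwq) hwq)))))
    have h3 : Poly (fun q : Option (List (List Bool)) × List Bool => q.1.isSome) :=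
      Poly.isSome (by fun_prop)
    fun_prop
  · intro x
    rw [evq_and, Bool.and_eq_true, evq_forall]
    cases hx : unbits (List (List Bool)) x with
    | none =>
      constructor
      · rintro ⟨p, hp, _⟩
        rw [← hp, unbits_bits] at hx
        cases hx
      · rintro ⟨h, _⟩
        simp at h
    | some p =>
      have hxp := bits_of_unbits hx
      rw [← hxp, bits_mem_lang, mixing_iff]
      simp only [Option.getD_some, Option.isSome_some, Bool.true_and]
      refine and_congr_right fun hp => ?_
      rw [isMixing_iff hp]
      have key : ∀ M : List Bool, M.length = p.length * k → (evq (List.replicate (p.length * k)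
          true ++ blocks (p.length * k) (p.length * k)) (fun u => mat k p (p.length * k)
            ((M ++ u).take (p.length * k)) (((M ++ u).drop (p.length * k)).take (p.length * k))
            (((M ++ u).drop (p.length * k)).drop (p.length * k))) = true ↔
          ∀ v, v.length = p.length * k → (valid k p M = true → valid k p v = true →
            Relation.ReflTransGen (fun u v => step k p u v = true) M v)) := by
        intro M hM
        rw [evq_forall]
        refine forall_congr' fun v => forall_congr' fun hv => ?_
        rw [← evq_mat k p M v hM]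
        have e : (fun u => mat k p (p.length * k)
            ((M ++ (v ++ u)).take (p.length * k))
            (((M ++ (v ++ u)).drop (p.length * k)).take (p.length * k))
            (((M ++ (v ++ u)).drop (p.length * k)).drop (p.length * k))) =
            fun z => mat k p (p.length * k) M v z := by
          funext u
          rw [List.take_left' hM, List.drop_left' hM, List.take_left' hv, List.drop_left' hv]
        rw [e]
      have hlen : ∀ u, valid k p u = true → u.length = p.length * k := by
        intro u hu
        unfold valid at hu
        rw [Bool.and_eq_true, decide_eq_true_eq] at hu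
        exact hu.1
      constructor
      · intro h M hM
        rw [key M hM]
        intro v hv hu hv'
        exact h M hu v hv'
      · intro h u hu v hv
        exact (key u (hlen u hu)).1 (h u (hlen u hu)) v (hlen v hv) hu hv

end Pool.Agent.NPC.Mix.T1
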